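import Pool.Agent.H159.Homog

/-!
# The graded Euler-Poincare form of two representations of Arthur type

The definitions are in `Pool.Agent.H159.Defs`. `exists_isGradedClass` (in `Pool.Agent.H159.Homog`)
shows that every Arthur parameter has graded classes, so that the statement is not vacuous.
-/

namespace Pool.Agent.Results.MP_ca1492_al.GradedEulerPoincare

open Pool.Agent.H159

/-- Let `ψ₁`, `ψ₂` be Arthur parameters and let `P₁`, `P₂` be any graded classes of the
representations of Arthur type `π₁`, `π₂` that they define: elements of the graded Grothendieck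
ring (polynomials in the segments over `ℤ[T, T⁻¹]`), specialising at `T = 1` to Tadić's formula for
`π₁`, `π₂` and involving only multisegments with the cuspidal support of `π₁`, `π₂`. Then the graded
Euler-Poincare form of `P₁` and `P₂` is non-zero if and only if `ψ₁` and `ψ₂` have the same
restriction to `W_F × ΔSL₂`. -/
theorem result {R : Type} (ψ₁ ψ₂ : Multiset (Block R))
    (P₁ P₂ : MvPolynomial (Seg R) (LaurentPolynomial ℤ))
    (h₁ : IsGradedClass ψ₁ P₁) (h₂ : IsGradedClass ψ₂ P₂) :
    gradedEP P₁ P₂ ≠ 0 ↔ diagRestrict ψ₁ = diagRestrict ψ₂ :=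
  gradedEP_ne_zero_iff ψ₁ ψ₂ P₁ P₂ h₁ h₂

end Pool.Agent.Results.MP_ca1492_al.GradedEulerPoincare
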