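import Pool.Agent.H159.KMain

/-!
# Ext groups between modules of Arthur type over quiver Hecke algebras of type `A∞`

The objects in the statement are defined in the following files of `Pool/Agent/H159`:
* `Defs.lean`: segments, Arthur parameters, `diagRestrict`, the class `arthurClass ψ` (Tadić);
* `Ops.lean`, `KLRing.lean`: the quiver Hecke algebra `KLR k I Ω`, its generators `kops`;
* `Chi.lean`: the quiver on `R × ℤ` and the word multiplicities `wordMult`;
* `Wrap.lean`: gradings, `IsKGrading`;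
* `KDefs.lean`: modules of Arthur type, `IsArthurModule`.
-/

namespace Pool.Agent.Results.MP_ca1492_al.QuiverHeckeExt

open Pool.Agent.H159 CategoryTheory

/-- Let `k` be a field, `R` a set of labels of unitary cuspidal representations, `Ω` a finite
permutation-closed set of words in the letters `(ρ, s)` (standing for `ν^(s/2) ρ`), and let
`KLR k (R × ℤ) Ω` be the quiver Hecke algebra of the quiver with vertices `(ρ, s)` and arrows
`(ρ, s) → (ρ, s + 2)`. Let `ψ₁`, `ψ₂` be Arthur parameters and let `X₁`, `X₂` be modules of Arthur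
type `ψ₁`, `ψ₂` over it. Then `Ext^i(X₁, X₂)` is non-zero for some `i`, the Ext groups being those
of the category of all modules, if and only if `ψ₁` and `ψ₂` have the same restriction to
`W_F × ΔSL₂`. -/
theorem result {k R : Type} [Field k] {Ω : Finset (List (R × ℤ))}
    (hΩ : ∀ l ∈ Ω, ∀ l', l.Perm l' → l' ∈ Ω)
    (ψ₁ ψ₂ : Multiset (Block R)) (X₁ X₂ : Type)
    [AddCommGroup X₁] [Module k X₁] [Module (KLR k (R × ℤ) Ω) X₁]
    [IsScalarTower k (KLR k (R × ℤ) Ω) X₁]
    [AddCommGroup X₂] [Module k X₂] [Module (KLR k (R × ℤ) Ω) X₂]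
    [IsScalarTower k (KLR k (R × ℤ) Ω) X₂]
    (h₁ : IsArthurModule k Ω ψ₁ X₁) (h₂ : IsArthurModule k Ω ψ₂ X₂) :
    (∃ i, Nontrivial (Abelian.Ext (ModuleCat.of (KLR k (R × ℤ) Ω) X₁)
      (ModuleCat.of (KLR k (R × ℤ) Ω) X₂) i)) ↔ diagRestrict ψ₁ = diagRestrict ψ₂ :=
  arthur_ext hΩ ψ₁ ψ₂ X₁ X₂ h₁ h₂

end Pool.Agent.Results.MP_ca1492_al.QuiverHeckeExt
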